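import Pool.Agent.Helper74.CA.Stmts

set_option autoImplicit false

namespace Pool.Agent.Helper74.CA

open scoped commutatorElement

theorem tlt_zero_of_double {L : Type} [AddCommGroup L] [Module (ZMod 3) L] {m : L}
    (h : m + m = 0) : m = 0 := by
  have h1 : m + m + m = 0 := by
    have h2 : ((1 + 1 + 1 : ZMod 3)) • m = m + m + m := by
      rw [add_smul, add_smul, one_smul]
    have h3 : (1 + 1 + 1 : ZMod 3) = 0 := by decide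
    rw [← h2, h3, zero_smul]
  rwa [h, zero_add] at h1

theorem st_TLT (hCOMM : ST_COMM) (hRR : ST_RR) (hTLF : ST_TLF) : ST_TLT := by
  intro K _ _ a n hKB hGen L _ _ C i hi x hx y z
  obtain ⟨c1, c2, c3, c4, c5, c6, c7, c8⟩ := hCOMM K
  have hmem1 : ∀ g : K, g ∈ gm K 1 := fun g => by rw [c4]; exact Subgroup.mem_top g
  have hcl1 : ∀ j, C.cl j (1 : K) = 0 := fun j =>
    (C.zero j 1 (gm K j).one_mem).2 (gm K (j + 1)).one_mem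
  have hU : x⁻¹ * a x ∈ gm K i := (gm K i).mul_mem ((gm K i).inv_mem hx) (c7 a.toMonoidHom i x hx)
  have hinv : ∀ g : K, C.cl 1 g⁻¹ = -C.cl 1 g := by
    intro g
    have h1 := C.add 1 g g⁻¹ (hmem1 _) (hmem1 _)
    rw [mul_inv_cancel, hcl1] at h1
    exact (neg_eq_of_add_eq_zero_right h1.symm).symm
  have hmul : ∀ g h : K, C.cl 1 (g * h) = C.cl 1 g + C.cl 1 h := fun g h =>
    C.add 1 g h (hmem1 _) (hmem1 _)
  -- the basic relation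
  have key : ∀ g : K, ⁅⁅C.cl i (x⁻¹ * a x), C.cl 1 g⁆, C.cl 1 g + C.cl 1 (x⁻¹ * a x)⁆ = 0 := by
    intro g
    obtain ⟨g', hg'⟩ := (hTLF K a n hKB hGen).2 g
    have e1 : C.cl 1 g = C.cl 1 (g'⁻¹ * a g') := by
      have h1 : g'⁻¹ * a g' = g * (g⁻¹ * (g'⁻¹ * a g')) := by group
      rw [h1, hmul, (C.zero 1 _ (hmem1 _)).2 hg', add_zero]
    have h2 := hRR K a n hKB x g'
    rw [e1, ← hmul]
    have h3 : ⁅x⁻¹ * a x, g'⁻¹ * a g'⁆ ∈ gm K (i + 1) :=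
      c1 i 1 (Subgroup.commutator_mem_commutator hU (hmem1 _))
    rw [C.lie i 1 _ _ hU (hmem1 _), C.lie (i + 1) 1 _ _ h3 (hmem1 _), h2, hcl1]
  -- squares
  have sq : ∀ g : K, ⁅⁅C.cl i (x⁻¹ * a x), C.cl 1 g⁆, C.cl 1 g⁆ = 0 := by
    intro g
    have h1 := key g
    have h2 := key g⁻¹
    rw [hinv, lie_neg, neg_lie, lie_add, lie_neg] at h2
    rw [lie_add] at h1
    apply tlt_zero_of_double
    have h3 : ⁅⁅C.cl i (x⁻¹ * a x), C.cl 1 g⁆, C.cl 1 g⁆ +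
        ⁅⁅C.cl i (x⁻¹ * a x), C.cl 1 g⁆, C.cl 1 g⁆ =
        (⁅⁅C.cl i (x⁻¹ * a x), C.cl 1 g⁆, C.cl 1 g⁆ +
          ⁅⁅C.cl i (x⁻¹ * a x), C.cl 1 g⁆, C.cl 1 (x⁻¹ * a x)⁆) +
        -(-⁅⁅C.cl i (x⁻¹ * a x), C.cl 1 g⁆, C.cl 1 g⁆ +
          ⁅⁅C.cl i (x⁻¹ * a x), C.cl 1 g⁆, C.cl 1 (x⁻¹ * a x)⁆) := by abel
    rw [h3, h1, h2, add_zero]
  have hyz := sq (y * z)
  rw [hmul, lie_add, lie_add (C.cl i (x⁻¹ * a x)), add_lie, add_lie, sq y, sq z, zero_add,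
    add_zero] at hyz
  rw [add_comm]
  exact hyz

end Pool.Agent.Helper74.CA
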